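import Pool.Agent.W981.OHF.Hard

/-!
# Optimal colouring of odd-hole-free graphs is NP-hard

Subdivide every edge of a graph `F` twice, and let `H` be the complement of the line graph of the
result.  The colour classes of `H` are the sets of edges of the subdivided graph with a common end,
so colourings of `H` are vertex covers of the subdivided graph, and `H` is odd-hole-free: the line
graph has no induced diamond (so `H` has no hole of length at least seven), and the lengths of its
holes are multiples of three (so `H` has no hole of length five).
-/

namespace Pool.Agent.Results.MP_27b024_lc.OptimalColouringNPHard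

open Pool.Agent.NPC Pool.Agent.NPC.R671

/-- A graph is odd-hole-free if no cycle of odd length `k ≥ 5` embeds as an induced subgraph. -/
def OddHoleFree {V : Type*} (G : SimpleGraph V) : Prop :=
  ∀ k : ℕ, Odd k → 5 ≤ k → IsEmpty (SimpleGraph.cycleGraph k ↪g G)

/-- There is a polynomial-time algorithm which, given (the adjacency matrix of) any odd-hole-free
graph `G`, outputs a proper colouring of `G` with `χ(G)` colours (the list of the colours of the
vertices). -/
def OptimallyColourable : Prop :=
  ∃ A : List Bool → List Bool, PolyTime A ∧ ∀ (n : ℕ) (G : SimpleGraph (Fin n)), OddHoleFree G →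
    ∃ (k : ℕ) (C : G.Coloring (Fin k)), (k : ℕ∞) = G.chromaticNumber ∧
      A (bits (adjMatrix G)) = bits (List.ofFn fun v => (C v : ℕ))

/-- **Optimal colouring is NP-hard on odd-hole-free graphs.**  (1) Every language in `NP` is
reduced in polynomial time to the question whether `χ(G) ≤ k`, with all produced graphs `G`
odd-hole-free.  (2) There is a polynomial-time algorithm which outputs an optimal colouring of every
odd-hole-free graph if and only if `P = NP`. -/
theorem result :
    (∀ L : Set (List Bool), InNP L → ∃ f : List Bool → List Bool, PolyTime f ∧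
      ∀ w, ∃ (n k : ℕ) (G : SimpleGraph (Fin n)),
        f w = bits (adjMatrix G, k) ∧ OddHoleFree G ∧ (w ∈ L ↔ G.chromaticNumber ≤ k)) ∧
    (OptimallyColourable ↔ ∀ L : Set (List Bool), InNP L → InP L) := by
  refine ⟨fun L hL => ?_, Pool.Agent.W981.OHF.optimalColouring_iff⟩
  obtain ⟨f, hf, h⟩ := Pool.Agent.W981.OHF.hard L hL
  refine ⟨f, hf, fun w => ?_⟩
  obtain ⟨n, k, G, h1, h2, h3⟩ := h w
  exact ⟨n, k, G, h1, h2, by rw [h3, SimpleGraph.chromaticNumber_le_iff_colorable]⟩

end Pool.Agent.Results.MP_27b024_lc.OptimalColouringNPHard
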